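import Mathlib

namespace Pool.Agent.Results.MP_2c613a_co.Infinite

open Finset

/-- `E` is an intersecting `r`-partite hypergraph on `V` whose sides are the fibres of `side`. -/
def IntPartite {V : Type} [DecidableEq V] {r : ℕ} (side : V → Fin r) (E : Finset (Finset V)) :
    Prop :=
  (∀ e ∈ E, ∀ i, ∃! v, v ∈ e ∧ side v = i) ∧ (∀ v, ∃ e ∈ E, v ∈ e) ∧
    ∀ e ∈ E, ∀ f ∈ E, (e ∩ f).Nonempty

/-- `C` is a vertex cover containing no edge and no side. -/
def NonTrivial {V : Type} [DecidableEq V] {r : ℕ} (side : V → Fin r) (E : Finset (Finset V))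
    (C : Finset V) : Prop :=
  (∀ e ∈ E, (e ∩ C).Nonempty) ∧ (∀ e ∈ E, ¬ e ⊆ C) ∧ ∀ i, ∃ v, side v = i ∧ v ∉ C

def sd (k N : ℕ) : Option (Fin (k + 2) × Fin (N + 2)) → Fin (k + 3)
  | none => 0
  | some p => p.1.succ

def ed (k N : ℕ) (i : Fin (N + 2)) : Finset (Option (Fin (k + 2) × Fin (N + 2))) :=
  insert none (univ.image fun j => some (j, i))

theorem mem_ed {k N : ℕ} {i : Fin (N + 2)} {p : Fin (k + 2) × Fin (N + 2)} :
    some p ∈ ed k N i ↔ p.2 = i := by
  obtain ⟨a, b⟩ := p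
  simp [ed, eq_comm]

theorem none_ed {k N : ℕ} {i : Fin (N + 2)} : none ∈ ed k N i := mem_insert_self _ _

theorem result (r : ℕ) (hr : 3 ≤ r) (N : ℕ) :
    ∃ (V : Type) (_ : Fintype V) (_ : DecidableEq V) (side : V → Fin r) (E : Finset (Finset V)),
      IntPartite side E ∧ (∃ C, NonTrivial side E C) ∧ ∀ C, NonTrivial side E C → N ≤ #C := by
  obtain ⟨k, rfl⟩ : ∃ k, r = k + 3 := ⟨r - 3, by omega⟩
  refine ⟨Option (Fin (k + 2) × Fin (N + 2)), inferInstance, inferInstance, sd k N,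
    univ.image (ed k N), ⟨?_, ?_, ?_⟩, ⟨univ.image fun i => some (if i = 0 then 0 else 1, i),
      ?_, ?_, ?_⟩, ?_⟩
  · simp only [mem_image, mem_univ, true_and]
    rintro _ ⟨a, rfl⟩ i
    refine Fin.cases ⟨none, ⟨none_ed, rfl⟩, ?_⟩ (fun j => ⟨some (j, a), ⟨mem_ed.2 rfl, rfl⟩, ?_⟩) i
    · rintro (_ | p) ⟨-, h⟩
      · rfl
      · exact absurd h (Fin.succ_ne_zero _)
    · rintro (_ | p) ⟨h1, h⟩
      · exact absurd h.symm (Fin.succ_ne_zero _)
      · exact congrArg some (Prod.ext (Fin.succ_injective _ h) (mem_ed.1 h1))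
  · rintro (_ | p)
    · exact ⟨_, mem_image_of_mem _ (mem_univ 0), none_ed⟩
    · exact ⟨_, mem_image_of_mem _ (mem_univ p.2), mem_ed.2 rfl⟩
  · simp only [mem_image, mem_univ, true_and]
    rintro _ ⟨a, rfl⟩ _ ⟨b, rfl⟩
    exact ⟨none, mem_inter.2 ⟨none_ed, none_ed⟩⟩
  · simp only [mem_image, mem_univ, true_and]
    rintro _ ⟨a, rfl⟩
    exact ⟨_, mem_inter.2 ⟨mem_ed.2 rfl, mem_image_of_mem _ (mem_univ a)⟩⟩
  · simp only [mem_image, mem_univ, true_and]
    rintro _ ⟨a, rfl⟩ h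
    simpa using h none_ed
  · intro i
    refine Fin.cases ⟨none, rfl, by simp⟩ (fun j => ?_) i
    by_cases h : j = 0
    · exact ⟨some (j, 1), rfl, by simp [h]⟩
    · exact ⟨some (j, 0), rfl, by simp [Ne.symm h]⟩
  · rintro C ⟨h1, -, h3⟩
    have hn : none ∉ C := by
      obtain ⟨_ | p, a, b⟩ := h3 0
      · exact b
      · exact absurd a (Fin.succ_ne_zero _)
    have : (univ : Finset (Fin (N + 2))) ⊆ C.image fun v => (v.map Prod.snd).getD 0 := by
      intro i _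
      obtain ⟨_ | p, hv⟩ := h1 _ (mem_image_of_mem _ (mem_univ i))
      · exact absurd (mem_inter.1 hv).2 hn
      · exact mem_image.2 ⟨some p, (mem_inter.1 hv).2, mem_ed.1 (mem_inter.1 hv).1⟩
    have := (card_le_card this).trans card_image_le
    simp only [card_univ, Fintype.card_fin] at this
    omega

end Pool.Agent.Results.MP_2c613a_co.Infinite
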