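import Mathlib

namespace Pool.Agent.Results.MP_2c613a_co.Upper

open Finset

/-- `E` is an intersecting `r`-partite hypergraph on `V` whose sides are the fibres of `side`. -/
def IntPartite {V : Type} [DecidableEq V] {r : ℕ} (side : V → Fin r) (E : Finset (Finset V)) :
    Prop :=
  (∀ e ∈ E, ∀ i, ∃! v, v ∈ e ∧ side v = i) ∧ (∀ v, ∃ e ∈ E, v ∈ e) ∧
    ∀ e ∈ E, ∀ f ∈ E, (e ∩ f).Nonempty

/-- `C` is a vertex cover containing no edge and no side. -/
def NonTrivial {V : Type} [DecidableEq V] {r : ℕ} (side : V → Fin r) (E : Finset (Finset V))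
    (C : Finset V) : Prop :=
  (∀ e ∈ E, (e ∩ C).Nonempty) ∧ (∀ e ∈ E, ¬ e ⊆ C) ∧ ∀ i, ∃ v, side v = i ∧ v ∉ C

theorem result {V : Type} [Fintype V] [DecidableEq V] {r : ℕ} (side : V → Fin r)
    (E : Finset (Finset V)) (h : IntPartite side E) (i₀ : Fin r)
    (h2 : 2 ≤ #{v | side v = i₀}) (h3 : ∀ i, i ≠ i₀ → 3 ≤ #{v | side v = i}) :
    ∃ C, NonTrivial side E C ∧ #C + 3 ≤ 2 * r := by
  obtain ⟨hu, hv, hi⟩ := h
  obtain ⟨x, hx, y, hy, hxy⟩ := one_lt_card.1 h2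
  simp only [mem_filter, mem_univ, true_and] at hx hy
  obtain ⟨g, hg, xg⟩ := hv x
  obtain ⟨k, hk, yk⟩ := hv y
  have cd : ∀ e ∈ E, #e ≤ r := by
    intro e he
    have := card_le_card_of_injOn (s := e) (t := univ) side (fun _ _ => mem_univ _)
      (fun a ha b hb hab => (hu e he (side b)).unique ⟨ha, hab⟩ ⟨hb, rfl⟩)
    simpa using this
  refine ⟨(g ∪ k).filter fun v => side v ≠ i₀, ⟨fun f hf => ?_, fun e he hs => ?_, fun i => ?_⟩, ?_⟩
  · obtain ⟨u, hu1⟩ := hi f hf g hg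
    obtain ⟨w, hw1⟩ := hi f hf k hk
    rw [mem_inter] at hu1 hw1
    by_cases e1 : side u = i₀
    · by_cases e2 : side w = i₀
      · have a := (hu g hg i₀).unique ⟨hu1.2, e1⟩ ⟨xg, hx⟩
        have b := (hu k hk i₀).unique ⟨hw1.2, e2⟩ ⟨yk, hy⟩
        have c := (hu f hf i₀).unique ⟨hu1.1, e1⟩ ⟨hw1.1, e2⟩
        exact absurd (a.symm.trans (c.trans b)) hxy
      · exact ⟨w, mem_inter.2 ⟨hw1.1, mem_filter.2 ⟨mem_union_right _ hw1.2, e2⟩⟩⟩
    · exact ⟨u, mem_inter.2 ⟨hu1.1, mem_filter.2 ⟨mem_union_left _ hu1.2, e1⟩⟩⟩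
  · obtain ⟨v, ⟨h1, h2⟩, -⟩ := hu e he i₀
    exact (mem_filter.1 (hs h1)).2 h2
  · by_cases e : i = i₀
    · exact ⟨x, hx.trans e.symm, fun hh => (mem_filter.1 hh).2 hx⟩
    · obtain ⟨a, ha, ua⟩ := hu g hg i
      obtain ⟨b, hb, ub⟩ := hu k hk i
      obtain ⟨v, h4, h5⟩ : ∃ v ∈ ({v | side v = i} : Finset V), v ∉ ({a, b} : Finset V) :=
        exists_mem_notMem_of_card_lt_card (lt_of_le_of_lt card_le_two (h3 i e))
      simp only [mem_filter, mem_univ, true_and, mem_insert, mem_singleton, not_or] at h4 h5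
      refine ⟨v, h4, fun hh => ?_⟩
      rcases mem_union.1 (mem_filter.1 hh).1 with t | t
      · exact h5.1 (ua v ⟨t, h4⟩)
      · exact h5.2 (ub v ⟨t, h4⟩)
  · have a := card_union_add_card_inter g k
    have b := card_pos.2 (hi g hg k hk)
    have c := card_filter_add_card_filter_not (s := g ∪ k) fun v => side v ≠ i₀
    have d : 2 ≤ #((g ∪ k).filter fun v => ¬ side v ≠ i₀) :=
      one_lt_card.2 ⟨x, by simp [xg, hx], y, by simp [yk, hy], hxy⟩
    have := cd g hg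
    have := cd k hk
    omega

end Pool.Agent.Results.MP_2c613a_co.Upper
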